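import Pool.Agent.MP_d91e39_lc.Conseq

/-!
LINKAGE on acyclic digraphs of ear anonymity at most five is hard for W[1], parameterized by the
number of pairs: a polynomial-time parameterized reduction from CLIQUE, and its consequence for the
existence of an algorithm running in time `f(k) * n ^ g(ea(D))`.
-/

namespace Pool.Agent.Results.MP_d91e39_lc.CliqueReduction

open Pool.Agent.MP_d91e39_lc Turing

/-- There is a polynomial-time computable map sending each instance `(G, k)` of CLIQUE, `k ≥ 2`, to
an instance of LINKAGE on an acyclic digraph of ear anonymity at most `5` with `3 k ^ 2` pairs,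
such that the linkage exists exactly when `G` has a clique with `k` vertices. Consequently, if
LINKAGE on acyclic digraphs can be solved in time `f(k) * (n + 1) ^ g(ea(D))`, even only for
`ea(D) ≤ 5`, then CLIQUE can be solved in time `F(k) * (n + 1) ^ c`. -/
theorem result :
    ∃ r : CliqueInst → LinkageInst,
      Nonempty (TM2ComputableInPolyTime CliqueInst.encode LinkageInst.encode r) ∧
      (∀ I : CliqueInst, (r I).D.Acyclic ∧ (r I).D.ea ≤ 5 ∧ (r I).k = 3 * I.k ^ 2 ∧
        ((r I).D.HasLinkage (r I).pairs ↔ ∃ s : Finset (Fin I.n), I.G.IsNClique I.k s)) ∧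
      ((∃ M f g, SolvesAcyclicLinkage M f g 5) → ∃ M F c, SolvesClique M F c) := by
  refine ⟨red, red_polytime, fun I => ⟨red_acyclic I, red_ea I, red_k I, ?_⟩,
    clique_of_acyclicLinkage⟩
  rw [red_correct]
  unfold SimpleGraph.CliqueFree
  push Not
  rfl

end Pool.Agent.Results.MP_d91e39_lc.CliqueReduction
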